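import Pool.Agent.H84.Sym.Defs
import Pool.Agent.H84.PrekopaLeindler

/-! Project SYM, module K: exponential moments of a convex body. -/

set_option autoImplicit false

open MeasureTheory Set Filter Topology
open scoped ContDiff Pointwise ENNReal

namespace Pool.Agent.H84.Sym

open Pool.Agent.H84

variable {E : Type*} [NormedAddCommGroup E] [InnerProductSpace ℝ E]
    [FiniteDimensional ℝ E] [MeasurableSpace E] [BorelSpace E]

namespace KMod

/-- The step given by the Prekopa-Leindler inequality. -/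
theorem step {K : Set E} (hKc : Convex ℝ K) (hKm : MeasurableSet K) (hlt : volume K < ⊤)
    {p : E → ℝ} (hpc : Continuous p) (hp : ∀ x y, p x - p y ≤ p (x + y))
    (hp2 : ∀ x, p ((2:ℝ)⁻¹ • x) = 2⁻¹ * p x) (r s : ℝ) :
    volume.real (K ∩ {x | 2 * s + r ≤ p x}) * volume.real (K ∩ {x | p x < r}) ≤
      volume.real (K ∩ {x | s ≤ p x}) ^ 2 := by
  have hmA : ∀ t : ℝ, MeasurableSet (K ∩ {x | t ≤ p x}) := fun t =>
    hKm.inter (measurableSet_le measurable_const hpc.measurable)
  have hmB : MeasurableSet (K ∩ {x | p x < r}) :=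
    hKm.inter (measurableSet_lt hpc.measurable measurable_const)
  have key := pl_inner E ((K ∩ {x | 2 * s + r ≤ p x}).indicator 1) ((K ∩ {x | p x < r}).indicator 1)
    ((K ∩ {x | s ≤ p x}).indicator 1) (measurable_one.indicator (hmA _))
    (measurable_one.indicator hmB) (measurable_one.indicator (hmA _)) ?_
  · rw [lintegral_indicator_one (hmA _), lintegral_indicator_one hmB,
      lintegral_indicator_one (hmA _)] at key
    have hfin : volume (K ∩ {x | s ≤ p x}) ^ 2 ≠ ⊤ := by
      apply ENNReal.pow_ne_top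
      exact ((measure_mono inter_subset_left).trans_lt hlt).ne
    have := ENNReal.toReal_mono hfin key
    rw [ENNReal.toReal_mul, ENNReal.toReal_pow] at this
    exact this
  · intro x y
    by_cases hx : x ∈ K ∩ {x | 2 * s + r ≤ p x}
    · by_cases hy : y ∈ K ∩ {x | p x < r}
      · have hxy : (2:ℝ)⁻¹ • (x + y) ∈ K ∩ {x | s ≤ p x} := by
          constructor
          · have := hKc hx.1 hy.1 (a := (2:ℝ)⁻¹) (b := (2:ℝ)⁻¹) (by norm_num) (by norm_num)
              (by norm_num)
            rwa [← smul_add] at this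
          · simp only [mem_ofPred_eq]
            rw [hp2]
            have h1 := hp x y
            have h2 : 2 * s + r ≤ p x := hx.2
            have h3 : p y < r := hy.2
            linarith
        rw [indicator_of_mem hx, indicator_of_mem hy, indicator_of_mem hxy]
        simp
      · rw [indicator_of_notMem hy]
        simp
    · rw [indicator_of_notMem hx]
      simp

/-- Iteration of a squared decay. -/
theorem decay {m : ℕ → ℝ} {W : ℝ} (hW : 0 < W) (hm0 : ∀ j, 0 ≤ m j) (h0 : 3 * m 0 ≤ W)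
    (h : ∀ j, m (j + 1) * W ≤ m j ^ 2) (j : ℕ) : m j ≤ W * (1 / 3) ^ (2 ^ j) := by
  induction j with
  | zero => simp only [pow_zero, pow_one]; linarith
  | succ j ih =>
    have h1 := h j
    have h2 : m j ^ 2 ≤ (W * (1 / 3) ^ (2 ^ j)) ^ 2 := pow_le_pow_left₀ (hm0 j) ih 2
    have h3 : (W * (1 / 3 : ℝ) ^ (2 ^ j)) ^ 2 = W * (1 / 3) ^ (2 ^ (j + 1)) * W := by
      rw [pow_succ 2 j, pow_mul]; ring
    have h4 : m (j + 1) * W ≤ W * (1 / 3) ^ (2 ^ (j + 1)) * W := by linarith
    exact le_of_mul_le_mul_right h4 hW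

/-- The numerical part. -/
theorem numeric (N : ℕ) :
    Real.exp (1 / 8) + Real.exp (3 / 8) / 4 +
      ∑ i ∈ Finset.range N, Real.exp (((2:ℝ) ^ (i + 3) - 1) / 8) * (1 / 3) ^ (2 ^ (i + 1)) ≤ 2 := by
  set q : ℝ := Real.exp 1 / 9 with hq
  have he : Real.exp 1 < 2.7182818286 := Real.exp_one_lt_d9
  have hq0 : 0 ≤ q := by positivity
  have hq1 : q < 0.30204 := by rw [hq]; linarith
  have hterm : ∀ i : ℕ, Real.exp (((2:ℝ) ^ (i + 3) - 1) / 8) * (1 / 3) ^ (2 ^ (i + 1)) ≤
      q ^ (i + 1) := by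
    intro i
    have h1 : Real.exp (((2:ℝ) ^ (i + 3) - 1) / 8) ≤ Real.exp 1 ^ (2 ^ i) := by
      rw [← Real.exp_nat_mul]
      apply Real.exp_le_exp.mpr
      push_cast
      rw [pow_add]
      linarith
    have h2 : ((1:ℝ) / 3) ^ (2 ^ (i + 1)) = (1 / 9) ^ (2 ^ i) := by
      rw [pow_succ, mul_comm, pow_mul]; norm_num
    rw [h2]
    calc Real.exp (((2:ℝ) ^ (i + 3) - 1) / 8) * (1 / 9) ^ (2 ^ i)
        ≤ Real.exp 1 ^ (2 ^ i) * (1 / 9) ^ (2 ^ i) := by
          apply mul_le_mul_of_nonneg_right h1 (by positivity)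
      _ = q ^ (2 ^ i) := by rw [← mul_pow, hq]; congr 1; ring
      _ ≤ q ^ (i + 1) := by
          apply pow_le_pow_of_le_one hq0 (by linarith)
          exact Nat.lt_two_pow_self
  have hsum : ∑ i ∈ Finset.range N, Real.exp (((2:ℝ) ^ (i + 3) - 1) / 8) * (1 / 3) ^ (2 ^ (i + 1)) ≤
      0.43275 := by
    calc _ ≤ ∑ i ∈ Finset.range N, q ^ (i + 1) := Finset.sum_le_sum fun i _ => hterm i
      _ = q * ∑ i ∈ Finset.range N, q ^ i := by
          rw [Finset.mul_sum]; exact Finset.sum_congr rfl fun i _ => by ring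
      _ ≤ q * (1 - q)⁻¹ := by
          apply mul_le_mul_of_nonneg_left _ hq0
          have hs := (summable_geometric_of_lt_one hq0 (by linarith)).sum_le_tsum
            (Finset.range N) (fun i _ => by positivity)
          rwa [tsum_geometric_of_lt_one hq0 (by linarith)] at hs
      _ ≤ 0.43275 := by
          rw [← div_eq_mul_inv, div_le_iff₀ (by linarith)]
          nlinarith
  have h1 : Real.exp (1 / 8) ≤ 1.1332 := by
    have h8 : Real.exp (1 / 8) ^ 8 = Real.exp 1 := by
      rw [← Real.exp_nat_mul]; norm_num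
    by_contra hcon
    push Not at hcon
    have : (1.1332:ℝ) ^ 8 < Real.exp (1 / 8) ^ 8 := pow_lt_pow_left₀ hcon (by norm_num) (by norm_num)
    rw [h8] at this
    norm_num at this
    linarith
  have h2 : Real.exp (3 / 8) ≤ 1.4553 := by
    have h8 : Real.exp (3 / 8) = Real.exp (1 / 8) ^ 3 := by
      rw [← Real.exp_nat_mul]; norm_num
    rw [h8]
    calc Real.exp (1 / 8) ^ 3 ≤ 1.1332 ^ 3 := pow_le_pow_left₀ (Real.exp_nonneg _) h1 3
      _ ≤ 1.4553 := by norm_num
  linarith

/-- The pointwise bound of the exponential. -/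
theorem pointwise {r : ℝ} (hr : 0 < r) (N : ℕ) (y : ℝ) (hy : y < (2 ^ (N + 1) - 1) * r) :
    Real.exp (y / (8 * r)) ≤ Real.exp (1 / 8) +
      ∑ j ∈ Finset.range N, (if (2 ^ (j + 1) - 1) * r ≤ y then
        Real.exp (((2:ℝ) ^ (j + 2) - 1) / 8) else 0) := by
  induction N with
  | zero =>
    simp only [Finset.range_zero, Finset.sum_empty, add_zero]
    apply Real.exp_le_exp.mpr
    rw [div_le_div_iff₀ (by positivity) (by norm_num)]
    norm_num at hy
    linarith
  | succ N ih =>
    rw [Finset.sum_range_succ]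
    by_cases h : y < (2 ^ (N + 1) - 1) * r
    · have := ih h
      have h0 : (0:ℝ) ≤ (if (2 ^ (N + 1) - 1) * r ≤ y then
        Real.exp (((2:ℝ) ^ (N + 2) - 1) / 8) else 0) := by
        split_ifs
        · exact Real.exp_nonneg _
        · exact le_refl _
      linarith
    · push Not at h
      rw [if_pos h]
      have h0 : (0:ℝ) ≤ ∑ j ∈ Finset.range N, (if (2 ^ (j + 1) - 1) * r ≤ y then
        Real.exp (((2:ℝ) ^ (j + 2) - 1) / 8) else 0) := by
        apply Finset.sum_nonneg
        intro j _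
        split_ifs
        · exact Real.exp_nonneg _
        · exact le_refl _
      have h1 : Real.exp (y / (8 * r)) ≤ Real.exp (((2:ℝ) ^ (N + 2) - 1) / 8) := by
        apply Real.exp_le_exp.mpr
        rw [div_le_div_iff₀ (by positivity) (by norm_num)]
        have : y ≤ (2 ^ (N + 1 + 1) - 1) * r := hy.le
        nlinarith
      have := Real.exp_nonneg (1 / 8)
      linarith

end KMod

theorem exp_moment {K : Set E} {R : ℝ} (hK : CB K R) (S : Submodule ℝ E) {T : ℝ} (hT : 0 < T)
    (hm : ∫ x in K, ‖S.orthogonalProjectionOnto x‖ ^ 2 ≤ T ^ 2 * volume.real K) :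
    ∫ x in K, Real.exp (‖S.orthogonalProjectionOnto x‖ / (16 * T)) ≤ 2 * volume.real K := by
  set p : E → ℝ := fun x => ‖S.orthogonalProjectionOnto x‖ with hp
  have hpc : Continuous p := by fun_prop
  have hp0 : ∀ x, 0 ≤ p x := fun x => norm_nonneg _
  have hp1 : ∀ x y, p x - p y ≤ p (x + y) := by
    intro x y
    simp only [hp, map_add]
    have := norm_sub_le (S.orthogonalProjectionOnto x + S.orthogonalProjectionOnto y)
      (S.orthogonalProjectionOnto y)
    rw [add_sub_cancel_right] at this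
    linarith
  have hp2 : ∀ x, p ((2:ℝ)⁻¹ • x) = 2⁻¹ * p x := by
    intro x
    simp only [hp, map_smul, norm_smul]
    norm_num
  have hlt := hK.lt_top
  set V := volume.real K with hV
  have hV0 : 0 < V := by
    rw [hV, measureReal_def]
    exact ENNReal.toReal_pos hK.vol0 hlt.ne
  set r : ℝ := 2 * T with hr
  have hr0 : 0 < r := by positivity
  have hpr : ∀ x ∈ K, p x ≤ R := by
    intro x hx
    have h1 := hK.sub hx
    rw [mem_closedBall_zero_iff] at h1
    exact (S.norm_orthogonalProjectionOnto_apply_le x).trans h1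
  have hintp : IntegrableOn (fun x => p x ^ 2) K := by
    exact (hK.bm_of_cont (f := fun x => p x ^ 2) (by fun_prop)).integrableOn hK
  set m : ℝ → ℝ := fun t => volume.real (K ∩ {x | t ≤ p x}) with hmdef
  have hmA : ∀ t : ℝ, MeasurableSet (K ∩ {x | t ≤ p x}) := fun t =>
    hK.meas.inter (measurableSet_le measurable_const hpc.measurable)
  have hmA' : ∀ t : ℝ, MeasurableSet ({x | t ≤ p x}) := fun t =>
    (measurableSet_le measurable_const hpc.measurable)
  have hm0 : ∀ t, 0 ≤ m t := fun t => measureReal_nonneg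
  -- Chebyshev
  have hcheb : m r * r ^ 2 ≤ T ^ 2 * V := by
    calc m r * r ^ 2 = ∫ x in K ∩ {x | r ≤ p x}, r ^ 2 := by
          rw [setIntegral_const, smul_eq_mul]
      _ ≤ ∫ x in K ∩ {x | r ≤ p x}, p x ^ 2 := by
          apply setIntegral_mono_on
          · exact integrableOn_const ((measure_mono inter_subset_left).trans_lt hlt).ne
          · exact hintp.mono_set inter_subset_left
          · exact hmA r
          · intro x hx
            exact pow_le_pow_left₀ hr0.le hx.2 2
      _ ≤ ∫ x in K, p x ^ 2 := by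
          apply setIntegral_mono_set hintp
          · exact Eventually.of_forall fun x => by positivity
          · exact (inter_subset_left).eventuallyLE
      _ ≤ T ^ 2 * V := hm
  have hm1 : m r ≤ V / 4 := by
    rw [hr] at hcheb ⊢
    have hT2 : 0 < T ^ 2 := by positivity
    have h1 : m (2 * T) * 4 * T ^ 2 ≤ V * T ^ 2 := by nlinarith
    have := le_of_mul_le_mul_right h1 hT2
    linarith
  set W := volume.real (K ∩ {x | p x < r}) with hW
  have hWV : W = V - m r := by
    have h1 : K ∩ {x | p x < r} = K \ (K ∩ {x | r ≤ p x}) := by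
      ext x
      simp only [mem_inter_iff, mem_ofPred_eq, Set.mem_sdiff, not_and, not_le]
      constructor
      · rintro ⟨h1, h2⟩; exact ⟨h1, fun _ => h2⟩
      · rintro ⟨h1, h2⟩; exact ⟨h1, h2 h1⟩
    rw [hW, h1, measureReal_sdiff inter_subset_left (hmA r)]
  have hW0 : 0 < W := by rw [hWV]; linarith
  have hWle : W ≤ V := by rw [hWV]; linarith [hm0 r]
  -- decay
  have hdec : ∀ j : ℕ, m ((2 ^ (j + 1) - 1) * r) ≤ W * (1 / 3) ^ (2 ^ j) := by
    apply KMod.decay (m := fun j => m ((2 ^ (j + 1) - 1) * r)) hW0 (fun j => hm0 _)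
    · norm_num
      rw [hWV]
      linarith
    · intro j
      have := KMod.step hK.conv hK.meas hlt hpc hp1 hp2 r ((2 ^ (j + 1) - 1) * r)
      have h2 : 2 * ((2 ^ (j + 1) - 1) * r) + r = (2 ^ (j + 1 + 1) - 1) * r := by ring
      rw [h2] at this
      exact this
  -- choose N
  obtain ⟨N, hN⟩ : ∃ N : ℕ, R < (2 ^ (N + 1) - 1) * r := by
    obtain ⟨N, hN⟩ := exists_nat_gt (R / r)
    refine ⟨N, ?_⟩
    rw [div_lt_iff₀ hr0] at hN
    have h1 : (N:ℝ) + 1 ≤ 2 ^ (N + 1) - 1 + 1 := by
      have : (N + 1 : ℕ) < 2 ^ (N + 1) := Nat.lt_two_pow_self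
      have h2 : ((N + 1 : ℕ) : ℝ) < 2 ^ (N + 1) := by exact_mod_cast this
      push_cast at h2
      linarith
    nlinarith
  have hpt : ∀ x ∈ K, Real.exp (p x / (8 * r)) ≤ Real.exp (1 / 8) +
      ∑ j ∈ Finset.range (N + 1), ({x | (2 ^ (j + 1) - 1) * r ≤ p x}.indicator
        (fun _ => Real.exp (((2:ℝ) ^ (j + 2) - 1) / 8)) x) := by
    intro x hx
    have h1 := KMod.pointwise hr0 (N + 1) (p x) ?_
    · exact h1
    · refine (hpr x hx).trans_lt (hN.trans_le ?_)
      apply mul_le_mul_of_nonneg_right _ hr0.le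
      have : (2:ℝ) ^ (N + 1) ≤ 2 ^ (N + 1 + 1) := pow_le_pow_right₀ (by norm_num) (by omega)
      linarith
  have hexpc : Continuous (fun x => Real.exp (p x / (8 * r))) := by fun_prop
  have hexpi : IntegrableOn (fun x => Real.exp (p x / (8 * r))) K :=
    (hK.bm_of_cont hexpc).integrableOn hK
  have hindi : ∀ j : ℕ, IntegrableOn (fun x => {x | (2 ^ (j + 1) - 1) * r ≤ p x}.indicator
        (fun _ => Real.exp (((2:ℝ) ^ (j + 2) - 1) / 8)) x) K := by
    intro j
    apply IntegrableOn.indicator _ (hmA' _)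
    exact integrableOn_const hlt.ne
  have h16 : (fun x => Real.exp (‖S.orthogonalProjectionOnto x‖ / (16 * T))) =
      fun x => Real.exp (p x / (8 * r)) := by
    funext x
    rw [hr]
    congr 2
    ring
  rw [h16]
  have hsumi : IntegrableOn (fun x => ∑ j ∈ Finset.range (N + 1),
      ({x | (2 ^ (j + 1) - 1) * r ≤ p x}.indicator
        (fun _ => Real.exp (((2:ℝ) ^ (j + 2) - 1) / 8)) x)) K := by
    apply integrable_finsetSum
    intro j _
    exact hindi j
  have hconsti : IntegrableOn (fun _ : E => Real.exp (1 / 8)) K := integrableOn_const hlt.ne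
  have hI : ∫ x in K, Real.exp (p x / (8 * r)) ≤ Real.exp (1 / 8) * V +
      ∑ j ∈ Finset.range (N + 1), Real.exp (((2:ℝ) ^ (j + 2) - 1) / 8) *
        m ((2 ^ (j + 1) - 1) * r) := by
    calc ∫ x in K, Real.exp (p x / (8 * r)) ≤ ∫ x in K, (Real.exp (1 / 8) +
        ∑ j ∈ Finset.range (N + 1), ({x | (2 ^ (j + 1) - 1) * r ≤ p x}.indicator
        (fun _ => Real.exp (((2:ℝ) ^ (j + 2) - 1) / 8)) x)) := by
          exact setIntegral_mono_on hexpi (hconsti.add hsumi) hK.meas hpt
      _ = _ := by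
        rw [integral_add hconsti hsumi, setIntegral_const, smul_eq_mul, mul_comm,
          integral_finsetSum _ (fun j _ => hindi j)]
        congr 1
        apply Finset.sum_congr rfl
        intro j _
        rw [setIntegral_indicator (hmA' _), setIntegral_const, smul_eq_mul, mul_comm]
  refine hI.trans ?_
  rw [Finset.sum_range_succ']
  have hterm : ∀ j ∈ Finset.range N, Real.exp (((2:ℝ) ^ (j + 1 + 2) - 1) / 8) *
        m ((2 ^ (j + 1 + 1) - 1) * r) ≤
      (Real.exp (((2:ℝ) ^ (j + 3) - 1) / 8) * (1 / 3) ^ (2 ^ (j + 1))) * V := by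
    intro j _
    have h1 := hdec (j + 1)
    have h2 : W * (1 / 3 : ℝ) ^ (2 ^ (j + 1)) ≤ V * (1 / 3) ^ (2 ^ (j + 1)) :=
      mul_le_mul_of_nonneg_right hWle (by positivity)
    have h3 := mul_le_mul_of_nonneg_left (h1.trans h2)
      (Real.exp_nonneg (((2:ℝ) ^ (j + 1 + 2) - 1) / 8))
    calc _ ≤ _ := h3
      _ = _ := by ring_nf
  have hsum := Finset.sum_le_sum hterm
  rw [← Finset.sum_mul] at hsum
  have hlast : Real.exp (((2:ℝ) ^ (0 + 2) - 1) / 8) * m ((2 ^ (0 + 1) - 1) * r) ≤
      Real.exp (3 / 8) / 4 * V := by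
    have h1 : ((2:ℝ) ^ (0 + 2) - 1) / 8 = 3 / 8 := by norm_num
    have h2 : ((2:ℝ) ^ (0 + 1) - 1) * r = r := by norm_num
    rw [h1, h2]
    have := mul_le_mul_of_nonneg_left hm1 (Real.exp_nonneg (3 / 8))
    linarith
  have hnum := mul_le_mul_of_nonneg_right (KMod.numeric N) hV0.le
  rw [add_mul, add_mul] at hnum
  linarith

end Pool.Agent.H84.Sym
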