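import Pool.Agent.H84.Sym.Defs

/-! Project SYM, module M1: a finite set of symmetries suffices. -/

set_option autoImplicit false

open MeasureTheory Set Filter Topology
open scoped ContDiff Pointwise

namespace Pool.Agent.H84.Sym

open Pool.Agent.H84

variable {E : Type*} [NormedAddCommGroup E] [InnerProductSpace ℝ E]
    [FiniteDimensional ℝ E]

theorem exists_finite {G : Set (E ≃ₗᵢ[ℝ] E)} (hfix : ∀ p : E, (∀ g ∈ G, g p = p) → p = 0) :
    ∃ G' ⊆ G, G'.Finite ∧ ∀ p : E, (∀ g ∈ G', g p = p) → p = 0 := by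
  obtain ⟨G', hG', hfin, hcov⟩ := (isCompact_sphere (0:E) 1).elim_finite_subcover_image
    (b := G) (c := fun g => {x : E | g x ≠ x})
    (fun g _ => isOpen_ne_fun g.continuous continuous_id) (by
      intro x hx
      have hx0 : x ≠ 0 := by
        rintro rfl
        simp at hx
      by_contra hcon
      apply hx0
      apply hfix
      intro g hg
      by_contra hne
      exact hcon (mem_iUnion₂.mpr ⟨g, hg, hne⟩))
  refine ⟨G', hG', hfin, fun p hp => ?_⟩
  by_contra hp0
  have hn : ‖p‖ ≠ 0 := norm_ne_zero_iff.mpr hp0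
  have hs : ‖p‖⁻¹ • p ∈ Metric.sphere (0:E) 1 := by
    rw [mem_sphere_zero_iff_norm, norm_smul, norm_inv, norm_norm, inv_mul_cancel₀ hn]
  obtain ⟨g, hg, hne⟩ := mem_iUnion₂.mp (hcov hs)
  apply hne
  rw [map_smul, hp g hg]

end Pool.Agent.H84.Sym
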